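import Pool.Agent.Helper51.REC.Goals2
import Pool.Agent.Helper12.RP.ROO
import Pool.Agent.Helper42.RD.VAL

/-!
# Project REC, packet G_INT: integral representatives
-/

set_option autoImplicit false
set_option linter.unusedSectionVars false

namespace Pool.Agent.Helper54.REC

open NumberField Module IsDedekindDomain Pool.Agent.Helper51.RP Pool.Agent.Helper42.PP
open Pool.Agent.Helper51.REC

section basic

variable {F : Type} [Field F] [NumberField F]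

theorem cadd (a b : 𝓞 F) : ((a + b : 𝓞 F) : F) = (a : F) + (b : F) :=
  map_add (algebraMap (𝓞 F) F) a b

theorem csub (a b : 𝓞 F) : ((a - b : 𝓞 F) : F) = (a : F) - (b : F) :=
  map_sub (algebraMap (𝓞 F) F) a b

theorem cmul (a b : 𝓞 F) : ((a * b : 𝓞 F) : F) = (a : F) * (b : F) :=
  map_mul (algebraMap (𝓞 F) F) a b

theorem cpow (a : 𝓞 F) (n : ℕ) : ((a ^ n : 𝓞 F) : F) = (a : F) ^ n :=
  map_pow (algebraMap (𝓞 F) F) a n

theorem cnat (n : ℕ) : (((n : 𝓞 F) : 𝓞 F) : F) = (n : F) :=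
  map_natCast (algebraMap (𝓞 F) F) n

theorem cone : (((1 : 𝓞 F) : 𝓞 F) : F) = 1 := map_one (algebraMap (𝓞 F) F)

theorem czero : (((0 : 𝓞 F) : 𝓞 F) : F) = 0 := map_zero (algebraMap (𝓞 F) F)

theorem cne {a : 𝓞 F} (h : a ≠ 0) : (a : F) ≠ 0 := fun h1 =>
  h (RingOfIntegers.ext (h1.trans czero.symm))

theorem not_isUnit_p {p : ℕ} (hp : p.Prime) : ¬ IsUnit (p : 𝓞 F) := by
  intro h
  have h1 : IsUnit (Algebra.norm ℤ (p : 𝓞 F)) := h.map (Algebra.norm ℤ)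
  have h2 : (p : 𝓞 F) = algebraMap ℤ (𝓞 F) (p : ℤ) := by simp
  rw [h2, Algebra.norm_algebraMap] at h1
  have h3 : 0 < finrank ℤ (𝓞 F) := by
    rw [RingOfIntegers.rank]
    exact finrank_pos
  have h4 : IsUnit (p : ℤ) := (isUnit_pow_iff h3.ne').1 h1
  have h5 := Int.isUnit_iff.1 h4
  have h6 := hp.two_le
  omega

theorem p_ne_zero {p : ℕ} (hp : p.Prime) : (p : 𝓞 F) ≠ 0 := Nat.cast_ne_zero.2 hp.ne_zero

theorem ne_zero_of {p : ℕ} (hp : p.Prime) {n : ℕ} (hn : n ≠ 0) {a b : 𝓞 F}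
    (h : (p : 𝓞 F) ^ n ∣ a * b - 1) : b ≠ 0 := by
  rintro rfl
  have h1 : (p : 𝓞 F) ∣ 1 := by
    have h2 : (p : 𝓞 F) ∣ a * 0 - 1 := (dvd_pow_self _ hn).trans h
    rwa [mul_zero, zero_sub, dvd_neg] at h2
  exact not_isUnit_p hp (isUnit_of_dvd_one h1)

theorem val_le_one (v : HeightOneSpectrum (𝓞 F)) (a : 𝓞 F) : v.valuation F (a : F) ≤ 1 :=
  v.valuation_le_one a

theorem mem_of_val {v : HeightOneSpectrum (𝓞 F)} {a : 𝓞 F} :
    a ∈ v.asIdeal ↔ v.valuation F (a : F) < 1 :=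
  (v.valuation_lt_one_iff_mem (K := F) a).symm

/-- The ideal of denominators. -/
def den (b : F) : Ideal (𝓞 F) where
  carrier := {d | ∃ c : 𝓞 F, (c : F) = (d : F) * b}
  zero_mem' := ⟨0, by rw [czero, zero_mul]⟩
  add_mem' := by
    rintro x y ⟨c, hc⟩ ⟨d, hd⟩
    exact ⟨c + d, by rw [cadd, cadd, hc, hd, add_mul]⟩
  smul_mem' := by
    rintro r x ⟨c, hc⟩
    exact ⟨r * c, by rw [smul_eq_mul, cmul, cmul, hc, mul_assoc]⟩

theorem not_den_le {v : HeightOneSpectrum (𝓞 F)} {b : F} (hb : v.valuation F b ≤ 1) :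
    ¬ den b ≤ v.asIdeal := by
  intro h
  obtain ⟨n, d, h1⟩ := v.exists_primeCompl_mul_eq_of_integer b hb
  have h2 : (d : 𝓞 F) ∈ den b := ⟨n, by rw [mul_comm]; exact h1.symm⟩
  exact d.2 (h h2)

theorem mem_int_of_val {b : F} (h : ∀ v : HeightOneSpectrum (𝓞 F), v.valuation F b ≤ 1) :
    ∃ c : 𝓞 F, (c : F) = b := by
  obtain ⟨c, hc⟩ := HeightOneSpectrum.mem_integers_of_valuation_le_one F b h
  exact ⟨c, hc⟩

theorem prod_le {T : Finset (HeightOneSpectrum (𝓞 F))} {v : HeightOneSpectrum (𝓞 F)}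
    (hv : v ∈ T) : (∏ w ∈ T, w.asIdeal) ≤ v.asIdeal :=
  Ideal.le_of_dvd (Finset.dvd_prod_of_mem (fun w : HeightOneSpectrum (𝓞 F) => w.asIdeal) hv)

/-- Coprime elements. -/
theorem exists_cop {p : ℕ} (hp : p.Prime) (T : Finset (HeightOneSpectrum (𝓞 F)))
    (hT : ∀ v : HeightOneSpectrum (𝓞 F), (p : 𝓞 F) ∈ v.asIdeal → v ∈ T) (I : Ideal (𝓞 F))
    (hI : ∀ v ∈ T, ¬ I ≤ v.asIdeal) (n : ℕ) :
    ∃ δ ∈ I, (p : 𝓞 F) ^ n ∣ δ - 1 ∧ ∀ v ∈ T, δ - 1 ∈ v.asIdeal := by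
  obtain ⟨J, hJ⟩ : ∃ J : Ideal (𝓞 F), J = ∏ v ∈ T, v.asIdeal := ⟨_, rfl⟩
  have hJv : ∀ v ∈ T, J ≤ v.asIdeal := fun v hv => hJ ▸ prod_le hv
  have hcop : I ⊔ (Ideal.span {(p : 𝓞 F) ^ n} * J) = ⊤ := by
    by_contra hne
    obtain ⟨P, hP, hle⟩ := Ideal.exists_le_maximal _ hne
    have hPp : P.IsPrime := hP.isPrime
    have h1 : I ≤ P := le_sup_left.trans hle
    have h2 : Ideal.span {(p : 𝓞 F) ^ n} * J ≤ P := le_sup_right.trans hle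
    rcases (hPp.mul_le).1 h2 with h3 | h3
    · have h4 : (p : 𝓞 F) ^ n ∈ P := h3 (Ideal.mem_span_singleton_self _)
      have h5 : (p : 𝓞 F) ∈ P := hPp.mem_of_pow_mem _ h4
      have hPb : P ≠ ⊥ := by
        intro h6
        rw [h6, Ideal.mem_bot] at h5
        exact p_ne_zero hp h5
      have hv : (⟨P, hPp, hPb⟩ : HeightOneSpectrum (𝓞 F)) ∈ T := hT ⟨P, hPp, hPb⟩ h5
      exact hI _ hv h1
    · rw [hJ] at h3
      obtain ⟨v, hv, h4⟩ := (hPp.prod_le).1 h3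
      have h5 : v.asIdeal = P := v.isMaximal.eq_of_le hPp.ne_top h4
      rw [← h5] at h1
      exact hI v hv h1
  obtain ⟨δ, hδ, m, hm, hδm⟩ := Submodule.mem_sup.1 ((Ideal.eq_top_iff_one _).1 hcop)
  have hle1 : Ideal.span {(p : 𝓞 F) ^ n} * J ≤ Ideal.span {(p : 𝓞 F) ^ n} := Ideal.mul_le_left
  have hle2 : Ideal.span {(p : 𝓞 F) ^ n} * J ≤ J := Ideal.mul_le_right
  have hm1 : m ∈ Ideal.span {(p : 𝓞 F) ^ n} := hle1 hm
  have hmn : (p : 𝓞 F) ^ n ∣ m := Ideal.mem_span_singleton.1 hm1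
  have hmJ : m ∈ J := hle2 hm
  have hδ1 : δ - 1 = -m := by rw [← hδm]; ring
  refine ⟨δ, hδ, ?_, fun v hv => ?_⟩
  · rw [hδ1]; exact hmn.neg_right
  · rw [hδ1]
    exact neg_mem (hJv v hv hmJ)

/-- Denominators. -/
theorem exists_den {p : ℕ} (hp : p.Prime) (T : Finset (HeightOneSpectrum (𝓞 F)))
    (hT : ∀ v : HeightOneSpectrum (𝓞 F), (p : 𝓞 F) ∈ v.asIdeal → v ∈ T) (b : F)
    (hb : ∀ v ∈ T, v.valuation F b ≤ 1) (n : ℕ) :
    ∃ δ γ : 𝓞 F, (γ : F) = (δ : F) * b ∧ (p : 𝓞 F) ^ n ∣ δ - 1 ∧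
      ∀ v ∈ T, δ - 1 ∈ v.asIdeal := by
  obtain ⟨δ, ⟨γ, hγ⟩, h1, h2⟩ := exists_cop hp T hT (den b) (fun v hv => not_den_le (hb v hv)) n
  exact ⟨δ, γ, hγ, h1, h2⟩

/-- A multiplier. -/
theorem exists_mult {p : ℕ} (T : Finset (HeightOneSpectrum (𝓞 F)))
    (hT : ∀ v ∈ T, (p : 𝓞 F) ∉ v.asIdeal) (n : ℕ) (s : 𝓞 F) (hs : (p : 𝓞 F) ^ 2 ∣ s - 1) :
    ∃ t : 𝓞 F, (p : 𝓞 F) ^ n ∣ s * t - 1 ∧ ∀ v ∈ T, t - 1 ∈ v.asIdeal := by
  have hsc : IsCoprime s ((p : 𝓞 F) ^ n) := by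
    apply IsCoprime.pow_right
    obtain ⟨c, hc⟩ := hs
    refine ⟨1, -((p : 𝓞 F) * c), ?_⟩
    have : s = 1 + (p : 𝓞 F) ^ 2 * c := by rw [← hc]; ring
    rw [this]
    ring
  obtain ⟨t₀, r, ht₀⟩ := hsc
  have hcop2 : IsCoprime (Ideal.span {(p : 𝓞 F) ^ n}) (∏ v ∈ T, v.asIdeal) := by
    refine IsCoprime.prod_right fun v hv => ?_
    rw [Ideal.isCoprime_iff_sup_eq]
    by_contra hne
    obtain ⟨P, hP, hle⟩ := Ideal.exists_le_maximal _ hne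
    have h1 : v.asIdeal = P := v.isMaximal.eq_of_le hP.ne_top (le_sup_right.trans hle)
    have h2 : (p : 𝓞 F) ^ n ∈ v.asIdeal := by
      rw [h1]
      exact (le_sup_left.trans hle) (Ideal.mem_span_singleton_self _)
    exact hT v hv (v.isPrime.mem_of_pow_mem _ h2)
  rw [Ideal.isCoprime_iff_sup_eq] at hcop2
  obtain ⟨a, ha, q, hq, haq⟩ := Submodule.mem_sup.1 ((Ideal.eq_top_iff_one _).1 hcop2)
  rw [Ideal.mem_span_singleton] at ha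
  refine ⟨a + q * t₀, ?_, fun v hv => ?_⟩
  · have e : s * (a + q * t₀) - 1 = a * (s - s * t₀) + (t₀ * s - 1) := by
      have : q = 1 - a := by rw [← haq]; ring
      rw [this]; ring
    rw [e]
    refine dvd_add (ha.mul_right _) ⟨-r, ?_⟩
    rw [← ht₀]
    ring
  · have h1 : q ∈ v.asIdeal := prod_le hv hq
    have e : a + q * t₀ - 1 = q * (t₀ - 1) := by
      have : q = 1 - a := by rw [← haq]; ring
      rw [this]; ring
    rw [e]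
    exact Ideal.mul_mem_right _ _ h1

theorem dvd_of_val {p : ℕ} (hp : p.Prime) {x : 𝓞 F}
    (h : ∀ v : HeightOneSpectrum (𝓞 F), v.valuation F (x : F) ≤ v.valuation F (p : F) ^ 3) :
    (p : 𝓞 F) ^ 3 ∣ x := by
  have hp3 : (p : F) ^ 3 ≠ 0 := pow_ne_zero _ (Nat.cast_ne_zero.2 hp.ne_zero)
  have h1 : ∀ v : HeightOneSpectrum (𝓞 F), v.valuation F ((x : F) / (p : F) ^ 3) ≤ 1 := by
    intro v
    rw [map_div₀, map_pow]
    exact div_le_one_of_le₀ (h v) zero_le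
  obtain ⟨c, hc⟩ := mem_int_of_val h1
  refine ⟨c, RingOfIntegers.ext ?_⟩
  have e : (((p : 𝓞 F) ^ 3 * c : 𝓞 F) : F) = (x : F) := by
    rw [cmul, cpow, cnat, hc, mul_div_cancel₀ _ hp3]
  exact e.symm

theorem core {p : ℕ} [hp : Fact p.Prime] (T : Finset (HeightOneSpectrum (𝓞 F)))
    (hT : ∀ v : HeightOneSpectrum (𝓞 F), v.valuation F (p : F) < 1 → v ∈ T) (b : F)
    (hb0 : b ≠ 0)
    (hb : ∀ v ∈ T, v.valuation F (b - 1) < 1 ∧ v.valuation F (b - 1) ≤ v.valuation F (p : F) ^ 3)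
    (n : ℕ) (hn : 3 ≤ n) :
    ∃ γ δ t : 𝓞 F, γ ≠ 0 ∧ δ ≠ 0 ∧ t ≠ 0 ∧ (p : 𝓞 F) ^ n ∣ γ - 1 ∧ (p : 𝓞 F) ^ n ∣ δ - 1 ∧
      (∀ v ∈ T, γ - 1 ∈ v.asIdeal) ∧ (∀ v ∈ T, δ - 1 ∈ v.asIdeal) ∧
      (γ : F) = (δ : F) * b * (t : F) ^ p := by
  classical
  have hp' : p.Prime := hp.out
  have hmp : ∀ v : HeightOneSpectrum (𝓞 F), (p : 𝓞 F) ∈ v.asIdeal → v ∈ T := by
    intro v hv
    refine hT v ?_
    have h1 := mem_of_val.1 hv
    rwa [cnat] at h1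
  have hval1 : ∀ v ∈ T, v.valuation F b = 1 := fun v hv =>
    Pool.Agent.Helper42.RD.val_eq_one_of_sub v (hb v hv).1
  obtain ⟨δ, γ, hγ, hδn, hδS⟩ := exists_den hp' T hmp b (fun v hv => (hval1 v hv).le) n
  have hδ0 : δ ≠ 0 := ne_zero_of hp' (a := 1) (n := n) (by omega) (by rwa [one_mul])
  have hγ0 : γ ≠ 0 := by
    intro h0
    rw [h0, czero] at hγ
    exact mul_ne_zero (cne hδ0) hb0 hγ.symm
  have hγe : ((γ - 1 : 𝓞 F) : F) = ((δ - 1 : 𝓞 F) : F) * b + (b - 1) := by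
    rw [csub, csub, hγ, cone]
    ring
  have hγS : ∀ v ∈ T, γ - 1 ∈ v.asIdeal := fun v hv => by
    rw [mem_of_val, hγe]
    refine (Valuation.map_add _ _ _).trans_lt (max_lt ?_ (hb v hv).1)
    rw [map_mul, hval1 v hv, mul_one]
    exact mem_of_val.1 (hδS v hv)
  have hγ3 : (p : 𝓞 F) ^ 3 ∣ γ - 1 := by
    refine dvd_of_val hp' fun v => ?_
    by_cases hv : v ∈ T
    · rw [hγe]
      refine (Valuation.map_add _ _ _).trans (max_le ?_ (hb v hv).2)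
      rw [map_mul, hval1 v hv, mul_one]
      obtain ⟨c, hc⟩ := (pow_dvd_pow (p : 𝓞 F) hn).trans hδn
      rw [hc, cmul, cpow, cnat, map_mul, map_pow]
      exact mul_le_of_le_one_right zero_le (val_le_one v c)
    · have h2 : v.valuation F (p : F) = 1 := by
        refine le_antisymm ?_ (not_lt.1 fun h => hv (hT v h))
        rw [← cnat]
        exact val_le_one v _
      rw [h2, one_pow]
      exact val_le_one v _
  obtain ⟨s', hs1, -, hs2⟩ := Pool.Agent.Helper12.RP.s_roo p F γ hγ3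
  have hs1 := hs1 n
  have hs2 := hs2 n
  generalize s' n = s at hs1 hs2
  obtain ⟨t, hts, ht1⟩ := exists_mult (T.filter (fun v => (p : 𝓞 F) ∉ v.asIdeal))
    (fun v hv => (Finset.mem_filter.1 hv).2) n s hs2
  have ht0 : t ≠ 0 := ne_zero_of hp' (by omega) hts
  have hg1n : (p : 𝓞 F) ^ n ∣ γ * t ^ p - 1 := by
    have e : γ * t ^ p - 1 = ((s * t) ^ p - 1 ^ p) - (s ^ p - γ) * t ^ p := by
      rw [mul_pow, one_pow]; ring
    rw [e]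
    exact dvd_sub (hts.trans (sub_dvd_pow_sub_pow _ _ _)) (hs1.mul_right _)
  refine ⟨γ * t ^ p, δ, t, mul_ne_zero hγ0 (pow_ne_zero _ ht0), hδ0, ht0, hg1n, hδn, ?_, hδS, ?_⟩
  · intro v hv
    by_cases hpv : (p : 𝓞 F) ∈ v.asIdeal
    · obtain ⟨c, hc⟩ := (dvd_pow_self (p : 𝓞 F) (show n ≠ 0 by omega)).trans hg1n
      rw [hc]
      exact Ideal.mul_mem_right _ _ hpv
    · have h1 : t ^ p - 1 ∈ v.asIdeal := by
        obtain ⟨c, hc⟩ := sub_dvd_pow_sub_pow t 1 p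
        rw [one_pow] at hc
        rw [hc]
        exact Ideal.mul_mem_right _ _ (ht1 v (Finset.mem_filter.2 ⟨hv, hpv⟩))
      have e : γ * t ^ p - 1 = (γ - 1) * t ^ p + (t ^ p - 1) := by ring
      rw [e]
      exact add_mem (Ideal.mul_mem_right _ _ (hγS v hv)) h1
  · rw [cmul, cpow, hγ]

end basic

theorem g_int : G_INT := by
  intro p hp F _ _ ε S hS β N hβ
  obtain ⟨y, hy⟩ := hβ
  obtain ⟨γ, δ, t, hγ0, hδ0, ht0, hγn, hδn, hγS, hδS, hE⟩ := core (p := p) hS.fin.toFinset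
    (fun v hv => hS.fin.mem_toFinset.2 (hS.abp v hv)) ((β : F) * (y : F) ^ p)
    (mul_ne_zero β.ne_zero (pow_ne_zero _ y.ne_zero))
    (fun v hv => hy v (hS.fin.mem_toFinset.1 hv)) (N + 3) (by omega)
  have hNn : (p : 𝓞 F) ^ N ∣ (p : 𝓞 F) ^ (N + 3) := pow_dvd_pow _ (by omega)
  refine ⟨![γ, δ], ![Units.mk0 _ (cne hγ0), Units.mk0 _ (cne hδ0)],
    (y * Units.mk0 _ (cne ht0))⁻¹, ?_, ?_, ?_, ?_⟩
  · refine Fin.forall_fin_two.2 ⟨rfl, rfl⟩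
  · exact Fin.forall_fin_two.2 ⟨hNn.trans hγn, hNn.trans hδn⟩
  · exact Fin.forall_fin_two.2 ⟨fun v hv => hγS v (hS.fin.mem_toFinset.2 hv),
      fun v hv => hδS v (hS.fin.mem_toFinset.2 hv)⟩
  · apply Units.ext
    have hy0 : (y : F) ≠ 0 := y.ne_zero
    have ht0' : (t : F) ≠ 0 := cne ht0
    have e1 : ((β * (![Units.mk0 _ (cne hγ0), Units.mk0 _ (cne hδ0)] : Fin 2 → Fˣ) 1 : Fˣ) : F) =
        (β : F) * (δ : F) := rfl
    have e2 : (((![Units.mk0 _ (cne hγ0), Units.mk0 _ (cne hδ0)] : Fin 2 → Fˣ) 0 *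
        (y * Units.mk0 _ (cne ht0))⁻¹ ^ p : Fˣ) : F) = (γ : F) * (((y : F) * (t : F))⁻¹) ^ p := by
      rw [Units.val_mul, Units.val_pow_eq_pow_val, Units.val_inv_eq_inv_val, Units.val_mul]
      rfl
    rw [e1, e2, hE, inv_pow, mul_pow]
    have h1 : (y : F) ^ p ≠ 0 := pow_ne_zero _ hy0
    have h2 : (t : F) ^ p ≠ 0 := pow_ne_zero _ ht0'
    field_simp

end Pool.Agent.Helper54.REC
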